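import Pool.Agent.helper37.CZ.SpecD

set_option autoImplicit false

open scoped Matrix Topology ComplexConjugate
open Filter

namespace Pool.Agent.CZ

/-- the tent functions -/
noncomputable def FAM_chi (i : ℕ) (τ : ℝ) : ℝ := max 0 (1 - 2 * |τ - i / 4|)

theorem FAM_chi_cont (i : ℕ) : Continuous (FAM_chi i) := by
  unfold FAM_chi
  fun_prop

theorem FAM_chi_zero {i : ℕ} {τ : ℝ} (h : 1 / 2 ≤ |τ - i / 4|) : FAM_chi i τ = 0 :=
  max_eq_left (by linarith)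

theorem FAM_chi_pos {i : ℕ} {τ : ℝ} (h : |τ - i / 4| < 1 / 2) : 0 < FAM_chi i τ :=
  lt_max_of_lt_right (by linarith)

theorem FAM_tsum_cont {Y : Type} [TopologicalSpace Y] (g : ℤ → Y × ℝ → ℝ) (hc : ∀ n, Continuous (g n))
    (hN : ∀ R : ℝ, ∃ N : ℕ, ∀ (n : ℤ) (p : Y × ℝ), |p.2| ≤ R → (N : ℤ) < |n| → g n p = 0) :
    Continuous (fun p => ∑' n, g n p) := by
  rw [continuous_iff_continuousAt]
  intro p0
  obtain ⟨N, hN⟩ := hN (|p0.2| + 1)
  have h1 : Continuous (fun p => ∑ n ∈ Finset.Icc (-(N : ℤ)) N, g n p) :=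
    continuous_finsetSum _ fun n _ => hc n
  have h2 : {p : Y × ℝ | |p.2| < |p0.2| + 1} ∈ 𝓝 p0 :=
    (isOpen_lt (by fun_prop) (by fun_prop)).mem_nhds (lt_add_one |p0.2|)
  refine h1.continuousAt.congr ?_
  filter_upwards [h2] with p hp
  symm
  refine tsum_eq_sum fun n hn => hN n p (le_of_lt hp) ?_
  rw [Finset.mem_Icc, ← abs_le, not_le] at hn
  exact hn

section

variable {X : Type} [TopologicalSpace X] (α : X ≃ₜ X) (h : C(X, ℝ)) (K : ℕ)

/-- the normalising function -/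
noncomputable def FAM_Th (x : X) (τ : ℝ) : ℝ :=
  ∑ i : Fin K, ∑' n : ℤ, FAM_chi i (τ + csum α h n x) ^ 2

/-- the family -/
noncomputable def FAM_phi (i : Fin K) (_ : Unit) (x : X) (τ : ℝ) : ℂ :=
  ((FAM_chi i τ / √(FAM_Th α h K x τ) : ℝ) : ℂ)

variable {α h K}

theorem FAM_van (h1 : CSM_stmt) {δ : ℝ} (hδ : 0 < δ) (hd : ∀ x, δ ≤ h x) (R : ℝ) :
    ∃ N : ℕ, ∀ (n : ℤ) (x : X) (τ : ℝ) (i : Fin K), |τ| ≤ R → (N : ℤ) < |n| →
      FAM_chi i (τ + csum α h n x) = 0 := by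
  obtain ⟨-, -, -, -, hlow, -⟩ := h1 X α h
  refine ⟨⌈(1 / 2 + R + K / 4) / δ⌉₊, fun n x τ i hτ hn => FAM_chi_zero ?_⟩
  have h2 : (1 / 2 + R + K / 4) / δ < |(n : ℝ)| := by
    refine lt_of_le_of_lt (Nat.le_ceil _) ?_
    exact_mod_cast hn
  rw [div_lt_iff₀ hδ] at h2
  have h3 : |(n : ℝ)| * δ ≤ |csum α h n x| := by
    rcases le_total 0 n with h0 | h0
    · have h4 := (hlow δ hd n x).1 h0
      have h5 : (0 : ℝ) ≤ n := by exact_mod_cast h0
      rw [abs_of_nonneg h5]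
      exact h4.trans (le_abs_self _)
    · have h4 := (hlow δ hd n x).2 h0
      have h5 : (n : ℝ) ≤ 0 := by exact_mod_cast h0
      rw [abs_of_nonpos h5]
      have h6 := neg_le_abs (csum α h n x)
      linarith
  have h4 : |csum α h n x| ≤ |τ + csum α h n x - i / 4| + |τ| + (i : ℕ) / 4 := by
    have h5 : csum α h n x = (τ + csum α h n x - (i : ℕ) / 4) - τ + (i : ℕ) / 4 := by ring
    have h6 : (0 : ℝ) ≤ ((i : ℕ) : ℝ) / 4 := by positivity
    calc |csum α h n x| = |(τ + csum α h n x - (i : ℕ) / 4) - τ + (i : ℕ) / 4| := by rw [← h5]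
      _ ≤ |(τ + csum α h n x - (i : ℕ) / 4) - τ| + |((i : ℕ) : ℝ) / 4| := abs_add_le _ _
      _ ≤ |τ + csum α h n x - (i : ℕ) / 4| + |τ| + |((i : ℕ) : ℝ) / 4| := by
        gcongr; exact abs_sub _ _
      _ = _ := by rw [abs_of_nonneg h6]
  have h5 : ((i : ℕ) : ℝ) ≤ K := by exact_mod_cast i.2.le
  linarith

theorem FAM_summ (h1 : CSM_stmt) {δ : ℝ} (hδ : 0 < δ) (hd : ∀ x, δ ≤ h x) (x : X) (τ : ℝ)
    (i : Fin K) : Summable fun n : ℤ => FAM_chi i (τ + csum α h n x) ^ 2 := by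
  obtain ⟨N, hN⟩ := FAM_van (α := α) (K := K) h1 hδ hd |τ|
  refine summable_of_ne_finset_zero (s := Finset.Icc (-(N : ℤ)) N) fun n hn => ?_
  rw [Finset.mem_Icc, ← abs_le, not_le] at hn
  rw [hN n x τ i le_rfl hn, zero_pow two_ne_zero]

theorem FAM_Th_cont (h1 : CSM_stmt) {δ : ℝ} (hδ : 0 < δ) (hd : ∀ x, δ ≤ h x) :
    Continuous (fun p : X × ℝ => FAM_Th α h K p.1 p.2) := by
  have hcont := (h1 X α h).2.2.2.1
  refine continuous_finsetSum _ fun i _ => ?_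
  refine FAM_tsum_cont (fun n p => FAM_chi i (p.2 + csum α h n p.1) ^ 2) (fun n => ?_) (fun R => ?_)
  · exact ((FAM_chi_cont i).comp (continuous_snd.add ((hcont n).comp continuous_fst))).pow 2
  · obtain ⟨N, hN⟩ := FAM_van (α := α) (K := K) h1 hδ hd R
    exact ⟨N, fun n p hp hn => by rw [hN n p.1 p.2 i hp hn, zero_pow two_ne_zero]⟩

theorem FAM_Th_inv (h1 : CSM_stmt) (n : ℤ) (x : X) (τ : ℝ) :
    FAM_Th α h K ((α ^ n) x) (τ + csum α h n x) = FAM_Th α h K x τ := by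
  refine Finset.sum_congr rfl fun i _ => ?_
  rw [← Equiv.tsum_eq (Equiv.addLeft n) (fun m : ℤ => FAM_chi i (τ + csum α h m x) ^ 2)]
  refine tsum_congr fun m => ?_
  rw [Equiv.coe_addLeft, (h1 X α h).2.2.1 n m x, add_assoc]

theorem FAM_least (h1 : CSM_stmt) {δ H : ℝ} (hδ : 0 < δ) (hd : ∀ x, δ ≤ h x) (hH : ∀ x, h x ≤ H)
    (x : X) (τ : ℝ) : ∃ n : ℤ, 0 ≤ τ + csum α h n x ∧ τ + csum α h n x ≤ H := by
  obtain ⟨-, hone, hadd, -, hlow, -⟩ := h1 X α h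
  -- the least `n` with `0 ≤ τ + S_n`
  obtain ⟨n, hn1, hn2⟩ : ∃ n : ℤ, 0 ≤ τ + csum α h n x ∧
      ∀ m : ℤ, 0 ≤ τ + csum α h m x → n ≤ m := by
    refine Int.exists_least_of_bdd (P := fun m : ℤ => 0 ≤ τ + csum α h m x) ?_ ?_
    · refine ⟨-⌈|τ| / δ⌉ , fun m hm => ?_⟩
      by_contra hlt
      rw [not_le] at hlt
      have h2 : (m : ℝ) < -(|τ| / δ) := by
        have h3 : (m : ℝ) < ((-⌈|τ| / δ⌉ : ℤ) : ℝ) := by exact_mod_cast hlt
        rw [Int.cast_neg] at h3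
        have h4 := Int.le_ceil (|τ| / δ)
        linarith
      have h5 : (m : ℝ) * δ < -|τ| := by
        have h6 := mul_lt_mul_of_pos_right h2 hδ
        rwa [neg_mul, div_mul_cancel₀ _ hδ.ne'] at h6
      have h7 : m ≤ 0 := by
        have h8 : (m : ℝ) ≤ 0 := by
          have : 0 ≤ |τ| / δ := div_nonneg (abs_nonneg _) hδ.le
          linarith
        exact_mod_cast h8
      have h9 := (hlow δ hd m x).2 h7
      have h10 := le_abs_self τ
      linarith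
    · refine ⟨⌈|τ| / δ⌉, ?_⟩
      have h2 := Int.le_ceil (|τ| / δ)
      have h3 : 0 ≤ ⌈|τ| / δ⌉ := Int.ceil_nonneg (div_nonneg (abs_nonneg _) hδ.le)
      have h4 := (hlow δ hd ⌈|τ| / δ⌉ x).1 h3
      rw [div_le_iff₀ hδ] at h2
      have h5 := neg_abs_le τ
      linarith
  refine ⟨n, hn1, ?_⟩
  have h2 : ¬ 0 ≤ τ + csum α h (n - 1) x := fun h3 => by
    have := hn2 _ h3
    omega
  have h3 := hadd (n - 1) 1 x
  rw [sub_add_cancel, hone] at h3
  have h4 := hH ((α ^ (n - 1)) x)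
  linarith

omit α h in
theorem FAM_tent {H : ℝ} (hK : 4 * H < K) (s : ℝ) (hs0 : 0 ≤ s) (hsH : s ≤ H) :
    ∃ i : Fin K, 0 < FAM_chi i s := by
  obtain ⟨q, hq⟩ : ∃ q : ℕ, q = ⌊4 * s⌋₊ := ⟨_, rfl⟩
  have hfl : (q : ℝ) ≤ 4 * s := by rw [hq]; exact Nat.floor_le (by linarith)
  have hfl2 : 4 * s < q + 1 := by rw [hq]; exact Nat.lt_floor_add_one _
  clear hq
  have hiK : q < K := by
    have h2 : (q : ℝ) < K := by linarith
    exact_mod_cast h2
  refine ⟨⟨q, hiK⟩, FAM_chi_pos ?_⟩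
  rw [abs_lt]
  constructor <;> linarith

theorem FAM_Th_pos (h1 : CSM_stmt) {δ H : ℝ} (hδ : 0 < δ) (hd : ∀ x, δ ≤ h x) (hH : ∀ x, h x ≤ H)
    (hK : 4 * H < K) (x : X) (τ : ℝ) : 0 < FAM_Th α h K x τ := by
  obtain ⟨n, hn1, hn3⟩ := FAM_least (α := α) h1 hδ hd hH x τ
  obtain ⟨i, hpos⟩ := FAM_tent hK _ hn1 hn3
  have h2 : 0 < ∑' m : ℤ, FAM_chi i (τ + csum α h m x) ^ 2 :=
    (FAM_summ h1 hδ hd x τ i).tsum_pos (fun m => sq_nonneg _) n (pow_pos hpos 2)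
  refine lt_of_lt_of_le h2 ?_
  exact Finset.single_le_sum
    (f := fun i : Fin K => ∑' m : ℤ, FAM_chi i (τ + csum α h m x) ^ 2)
    (fun i _ => tsum_nonneg fun m => sq_nonneg _) (Finset.mem_univ i)

end

theorem FAM (h1 : CSM_stmt) (h2 : CSL_stmt) (h3 : FSB_stmt) : FAM_stmt := by
  intro X _ _ α w h hrot hpos
  rcases isEmpty_or_nonempty X with hX | hX
  · exact ⟨0, fun i => i.elim0, ⟨fun i => i.elim0, ⟨0, fun i => i.elim0⟩, fun q x => isEmptyElim x,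
      fun q q' x => isEmptyElim x⟩⟩
  obtain ⟨xm, -, hxm⟩ := isCompact_univ.exists_isMinOn (Set.univ_nonempty (α := X))
    h.continuous.continuousOn
  obtain ⟨xM, -, hxM⟩ := isCompact_univ.exists_isMaxOn (Set.univ_nonempty (α := X))
    h.continuous.continuousOn
  replace hxm : ∀ x, h xm ≤ h x := fun x => hxm (Set.mem_univ x)
  replace hxM : ∀ x, h x ≤ h xM := fun x => hxM (Set.mem_univ x)
  obtain ⟨K, hK⟩ := exists_nat_gt (4 * h xM)
  have hTp := FAM_Th_pos (α := α) h1 (hpos xm) hxm hxM hK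
  refine ⟨K, FAM_phi α h K, ?_, ?_, ?_, ?_⟩
  · intro i q
    exact Complex.continuous_ofReal.comp (((FAM_chi_cont i).comp continuous_snd).div
      (Real.continuous_sqrt.comp (FAM_Th_cont h1 (hpos xm) hxm))
      (fun p => (Real.sqrt_pos.2 (hTp _ _)).ne'))
  · refine ⟨K / 4 + 1, fun i q x τ hτ => ?_⟩
    have h4 : FAM_chi i τ = 0 := by
      refine FAM_chi_zero ?_
      have h5 : ((i : ℕ) : ℝ) ≤ K := by exact_mod_cast i.2.le
      have h6 : |τ| ≤ |τ - (i : ℕ) / 4| + |((i : ℕ) : ℝ) / 4| := by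
        have h7 := abs_add_le (τ - (i : ℕ) / 4) ((i : ℕ) / 4)
        rwa [sub_add_cancel] at h7
      have h8 : (0 : ℝ) ≤ ((i : ℕ) : ℝ) / 4 := by positivity
      rw [abs_of_nonneg h8] at h6
      linarith
    rw [FAM_phi, h4, zero_div, Complex.ofReal_zero]
  · intro q x τ _
    have h4 : ∀ i : Fin K, ∀ n : ℤ, FAM_phi α h K i q ((α ^ n) x) (τ + csum α h n x) ^ 2 =
        ((FAM_chi i (τ + csum α h n x) ^ 2 / FAM_Th α h K x τ : ℝ) : ℂ) := by
      intro i n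
      rw [FAM_phi, FAM_Th_inv h1, ← Complex.ofReal_pow, div_pow, Real.sq_sqrt (hTp x τ).le]
    simp_rw [h4, ← Complex.ofReal_tsum, tsum_div_const, ← Complex.ofReal_sum, ← Finset.sum_div]
    rw [← FAM_Th, div_self (hTp x τ).ne', Complex.ofReal_one]
  · intro q q' x τ τ' hτ hτ' hne
    have hne' : τ ≠ τ' := by
      rcases hne with h | h
      · exact absurd (Subsingleton.elim q q') h
      · exact h
    obtain ⟨k, hk⟩ := ((h3 (w x) (hrot.1 x)).2 τ hτ).1 τ' |>.1 hτ'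
    have hk0 : k ≠ 0 := by
      rintro rfl
      exact hne' (by rw [hk, Int.cast_zero, add_zero])
    have hk1 : (1 : ℝ) ≤ |(k : ℝ)| := by
      exact_mod_cast Int.one_le_abs hk0
    refine Finset.sum_eq_zero fun i _ => ?_
    rw [← tsum_zero (α := ℂ) (β := ℤ)]
    refine tsum_congr fun n => ?_
    have h4 : FAM_chi i (τ + csum α h n x) = 0 ∨ FAM_chi i (τ' + csum α h n x) = 0 := by
      by_contra hcon
      rw [not_or] at hcon
      have h5 : |τ + csum α h n x - (i : ℕ) / 4| < 1 / 2 := by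
        by_contra h6
        exact hcon.1 (FAM_chi_zero (not_lt.1 h6))
      have h6 : |τ' + csum α h n x - (i : ℕ) / 4| < 1 / 2 := by
        by_contra h7
        exact hcon.2 (FAM_chi_zero (not_lt.1 h7))
      have h7 : (k : ℝ) = (τ' + csum α h n x - (i : ℕ) / 4) - (τ + csum α h n x - (i : ℕ) / 4) := by
        rw [hk]; ring
      have h8 : |(k : ℝ)| ≤ |τ' + csum α h n x - (i : ℕ) / 4| + |τ + csum α h n x - (i : ℕ) / 4| := by
        rw [h7]; exact abs_sub _ _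
      linarith
    rcases h4 with h4 | h4
    · rw [FAM_phi, h4, zero_div, Complex.ofReal_zero, zero_mul]
    · rw [FAM_phi, FAM_phi, h4, zero_div, Complex.ofReal_zero, mul_zero]

end Pool.Agent.CZ
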